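import Pool.Agent.H81.CographMain

/-!
# MP_c84e8f_co : the well-forced cographs

An explicit recursion along the cotree decides which cographs (graphs without induced `P_4`) have
the property that all their minimal zero forcing sets are minimum, and gives `|V| - Z(G)` for them.
The definitions are in `Pool/Agent/H81/CographDefs.lean`.
-/

namespace Pool.Agent.Results.MP_c84e8f_co.Cographs

open Pool.Agent.H81.CG

/-- Every finite nonempty graph without induced `P_4` is built by some cotree; and for every cotree
`t` that builds `G`, all minimal zero forcing sets of `G` are minimum if and only if the recursion
gives a number `(state t).w = some m`; this number is then `m = |V| - Z(G)`. -/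
theorem result {V : Type*} [Fintype V] (G : SimpleGraph V) [Nonempty V] :
    (¬ InducedP4 G → ∃ t, BuiltBy G Finset.univ t) ∧
    ∀ t, BuiltBy G Finset.univ t →
      (WellForced G ↔ ∃ m, (state t).w = some m) ∧
      ∀ m, (state t).w = some m → zeroForcingNumber G + m = Fintype.card V :=
  main_result G

end Pool.Agent.Results.MP_c84e8f_co.Cographs
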