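import Pool.Agent.H81.ConeThm

/-!
# MP_c84e8f_co : graphs with a vertex adjacent to all others

Let `u` be adjacent to all other vertices of `G`. If at least two vertices have `u` as their only
neighbour, then all minimal zero forcing sets of `G` are minimum if and only if this holds for
`G - u`. Otherwise, for every splitting of `G - u` as a disjoint union of `G[A]` and `G[B]`, this
holds for `G` if and only if it holds for both `G[A ∪ {u}]` and `G[B ∪ {u}]`.
-/

namespace Pool.Agent.Results.MP_c84e8f_co.ConeTheorem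

open Pool.Agent.H81.CG

theorem result {V : Type*} [Fintype V] (G : SimpleGraph V) (u : V)
    (dom : ∀ v, v ≠ u → G.Adj u v) :
    ((∃ v w, v ≠ w ∧ (v ≠ u ∧ ∀ x, G.Adj v x → x = u) ∧ (w ≠ u ∧ ∀ x, G.Adj w x → x = u)) →
      (WellForced G ↔ WellForced (G.induce {v | v ≠ u}))) ∧
    ((∀ v w, (v ≠ u ∧ ∀ x, G.Adj v x → x = u) → (w ≠ u ∧ ∀ x, G.Adj w x → x = u) → v = w) →
      ∀ A B : Finset V, (∀ v, v ≠ u ↔ v ∈ A ∨ v ∈ B) → Disjoint A B →
        (∀ x ∈ A, ∀ y ∈ B, ¬ G.Adj x y) →
        (WellForced G ↔ WellForced (G.induce (insert u (A : Set V))) ∧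
          WellForced (G.induce (insert u (B : Set V))))) :=
  cone_main dom

end Pool.Agent.Results.MP_c84e8f_co.ConeTheorem
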