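import Pool.Agent.H81.WellForcedCograph

/-!
# MP_c84e8f_co : the hereditarily well-forced graphs

Every induced subgraph of a finite graph `G` has the property that all its minimal zero forcing
sets are minimum if and only if `G` contains none of five explicit graphs as an induced subgraph:
the path `P_4` and the joins of `P_3` or `K_1 + K_2` with `2 K_1 + K_2` or `K_1 + P_3`.
-/

namespace Pool.Agent.Results.MP_c84e8f_co.Hereditary

variable {V : Type*}

/-- `Blue G S v`: the vertex `v` is blue at the end, when the colour change rule is applied starting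
with exactly the vertices of `S` blue. (A blue vertex `u` all of whose neighbours other than `w` are
blue makes its neighbour `w` blue.) -/
inductive Blue (G : SimpleGraph V) (S : Finset V) : V → Prop
  | init {v : V} (hv : v ∈ S) : Blue G S v
  | force {u w : V} (hu : Blue G S u) (huw : G.Adj u w)
      (h : ∀ x, G.Adj u x → x ≠ w → Blue G S x) : Blue G S w

/-- `S` is a zero forcing set of `G`. -/
def IsZFS (G : SimpleGraph V) (S : Finset V) : Prop := ∀ v, Blue G S v

/-- `S` is an inclusion-minimal zero forcing set of `G`. -/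
def IsMinimalZFS (G : SimpleGraph V) (S : Finset V) : Prop :=
  IsZFS G S ∧ ∀ T : Finset V, T ⊂ S → ¬ IsZFS G T

/-- The zero forcing number of `G`. -/
noncomputable def zeroForcingNumber (G : SimpleGraph V) : ℕ :=
  sInf {k | ∃ S : Finset V, IsZFS G S ∧ S.card = k}

/-- Every minimal zero forcing set of `G` is a minimum zero forcing set. -/
def WellForced (G : SimpleGraph V) : Prop :=
  ∀ S : Finset V, IsMinimalZFS G S → S.card = zeroForcingNumber G

/-- `G` contains `P_4` as an induced subgraph (with consecutive vertices `a, b, c, d`). -/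
def InducedP4 (G : SimpleGraph V) : Prop :=
  ∃ a b c d, a ≠ c ∧ a ≠ d ∧ b ≠ d ∧ G.Adj a b ∧ G.Adj b c ∧ G.Adj c d ∧
    ¬ G.Adj a c ∧ ¬ G.Adj b d ∧ ¬ G.Adj a d

/-- `G` contains, as an induced subgraph, the join of a graph on `a, b, c` which is `P_3` or
`K_1 + K_2` (depending on whether `b ~ c`) with a graph on `p, q, s, t` which is `K_1 + P_3` or
`2 K_1 + K_2` (depending on whether `q ~ t`). -/
def InducedJoin (G : SimpleGraph V) : Prop :=
  ∃ a b c p q s t, (a ≠ c ∧ G.Adj a b ∧ ¬ G.Adj a c) ∧
    (p ≠ q ∧ q ≠ s ∧ ¬ G.Adj p q ∧ ¬ G.Adj p s ∧ ¬ G.Adj p t ∧ G.Adj s t ∧ ¬ G.Adj q s) ∧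
    ∀ x ∈ ({a, b, c} : Set V), ∀ y ∈ ({p, q, s, t} : Set V), G.Adj x y

open Pool.Agent.H81.WF Classical

section transfer

variable [Finite V] {G : SimpleGraph V} {A : Finset V}

theorem blue_to {S : Finset (A : Set V)} {v : (A : Set V)} (h : Blue (G.induce (A : Set V)) S v) :
    BlueIn G A (S.map (Function.Embedding.subtype _)) v := by
  induction h with
  | @init v hv =>
    exact .init (Finset.mem_coe.mp v.2) (Finset.mem_map_of_mem _ hv)
  | @force u w hu huw h ihu ih =>
    refine .force ihu (Finset.mem_coe.mp w.2) huw fun x hx hux hxw => ?_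
    exact ih ⟨x, Finset.mem_coe.mpr hx⟩ hux fun e => hxw (congrArg Subtype.val e)

theorem blue_from {S : Finset (A : Set V)} {v : V}
    (h : BlueIn G A (S.map (Function.Embedding.subtype _)) v) :
    ∀ hv : v ∈ (A : Set V), Blue (G.induce (A : Set V)) S ⟨v, hv⟩ := by
  induction h with
  | @init v hA hS =>
    intro hv
    obtain ⟨s, hs, hsv⟩ := Finset.mem_map.mp hS
    have : s = ⟨v, hv⟩ := Subtype.ext hsv
    exact .init (this ▸ hs)
  | @force u w hu hw huw h ihu ih =>
    intro hv
    have huA : u ∈ (A : Set V) := Finset.mem_coe.mpr hu.mem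
    refine Blue.force (G := G.induce (A : Set V)) (u := ⟨u, huA⟩) (ihu huA)
      (SimpleGraph.comap_adj.mpr huw) fun x hux hxw => ?_
    exact ih x (Finset.mem_coe.mp x.2) hux (fun e => hxw (Subtype.ext e)) x.2

theorem zfs_iff {S : Finset (A : Set V)} :
    IsZFS (G.induce (A : Set V)) S ↔ ZF G A (S.map (Function.Embedding.subtype _)) := by
  constructor
  · intro h v hv
    exact blue_to (h ⟨v, Finset.mem_coe.mpr hv⟩)
  · rintro h ⟨v, hv⟩
    exact blue_from (h v (Finset.mem_coe.mp hv)) hv

theorem sub_map {S0 : Finset V} (h : S0 ⊆ A) :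
    (S0.subtype (· ∈ (A : Set V))).map (Function.Embedding.subtype _) = S0 :=
  Finset.subtype_map_of_mem fun x hx => Finset.mem_coe.mpr (h hx)

theorem sub_card {S0 : Finset V} (h : S0 ⊆ A) :
    (S0.subtype (· ∈ (A : Set V))).card = S0.card := by
  rw [← Finset.card_map (Function.Embedding.subtype _), sub_map h]

/-- Uniform families give well-forced graphs. -/
theorem wf_of_uni (h : ∃ z, Uni (ZF G A) A z) : WellForced (G.induce (A : Set V)) := by
  obtain ⟨z, hz⟩ := h
  have hred : ∀ T : Finset (A : Set V), IsZFS (G.induce (A : Set V)) T →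
      ∃ T0 : Finset (A : Set V), T0 ⊆ T ∧ IsZFS (G.induce (A : Set V)) T0 ∧ T0.card = z := by
    intro T hT
    obtain ⟨S0, h1, h2, h3, h4⟩ := hz _ (zfs_iff.mp hT)
    refine ⟨S0.subtype (· ∈ (A : Set V)), ?_, ?_, ?_⟩
    · intro x hx
      have h5 := h1 (Finset.mem_subtype.mp hx)
      obtain ⟨y, hy, hyx⟩ := Finset.mem_map.mp h5
      have : y = x := Subtype.ext hyx
      exact this ▸ hy
    · rw [zfs_iff, sub_map h2]
      exact h3
    · rw [sub_card h2, h4]
  intro S hS
  have hcard : S.card = z := by
    obtain ⟨S0, h0, h1, h2⟩ := hred S hS.1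
    rcases h0.eq_or_ssubset with h | h
    · rw [← h]; exact h2
    · exact absurd h1 (hS.2 S0 h)
  rw [hcard]
  unfold zeroForcingNumber
  refine le_antisymm ?_ (Nat.sInf_le ⟨S, hS.1, hcard⟩)
  refine le_csInf ⟨z, S, hS.1, hcard⟩ ?_
  rintro k ⟨T, hT, rfl⟩
  obtain ⟨T0, h0, -, h2⟩ := hred T hT
  rw [← h2]
  exact Finset.card_le_card h0

/-- Two zero forcing sets, the larger of which is minimal. -/
theorem not_wf {S1 S2 : Finset V} (h1A : S1 ⊆ A) (h2A : S2 ⊆ A) (h1 : ZF G A S1)
    (hmin : ∀ v ∈ S1, ¬ ZF G A (S1.erase v)) (h2 : ZF G A S2) (hlt : S2.card < S1.card) :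
    ¬ WellForced (G.induce (A : Set V)) := by
  intro hW
  have hz1 : IsZFS (G.induce (A : Set V)) (S1.subtype (· ∈ (A : Set V))) := by
    rw [zfs_iff, sub_map h1A]; exact h1
  have hz2 : IsZFS (G.induce (A : Set V)) (S2.subtype (· ∈ (A : Set V))) := by
    rw [zfs_iff, sub_map h2A]; exact h2
  have hm : IsMinimalZFS (G.induce (A : Set V)) (S1.subtype (· ∈ (A : Set V))) := by
    refine ⟨hz1, fun T hT hTZ => ?_⟩
    obtain ⟨hsub, hns⟩ := Finset.ssubset_iff_subset_ne.mp hT
    obtain ⟨v, hv, hvT⟩ : ∃ v ∈ S1.subtype (· ∈ (A : Set V)), v ∉ T := by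
      by_contra hcon
      push Not at hcon
      exact hns (Finset.Subset.antisymm hsub hcon)
    refine hmin v (Finset.mem_subtype.mp hv) ((zfs_iff.mp hTZ).mono ?_)
    intro x hx
    obtain ⟨y, hy, rfl⟩ := Finset.mem_map.mp hx
    refine Finset.mem_erase.mpr ⟨?_, Finset.mem_subtype.mp (hsub hy)⟩
    intro e
    exact hvT ((Subtype.ext e : y = v) ▸ hy)
  have e1 := hW _ hm
  have e2 : zeroForcingNumber (G.induce (A : Set V)) ≤ S2.card :=
    Nat.sInf_le ⟨_, hz2, sub_card h2A⟩
  rw [sub_card h1A] at e1
  omega

end transfer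

section necessity

variable [Finite V] {G : SimpleGraph V}

theorem not_wf_P4 {a b c d : V} (hac : a ≠ c) (had : a ≠ d) (hbd : b ≠ d) (h1 : G.Adj a b)
    (h2 : G.Adj b c) (h3 : G.Adj c d) (n1 : ¬ G.Adj a c) (n2 : ¬ G.Adj b d) (n3 : ¬ G.Adj a d) :
    ¬ WellForced (G.induce ((({a, b, c, d} : Finset V)) : Set V)) := by
  have ir := G.loopless.irrefl
  have mem : ∀ x, x ∈ ({a, b, c, d} : Finset V) ↔ x = a ∨ x = b ∨ x = c ∨ x = d := by
    intro x; simp
  have nb : ∀ x ∈ ({a, b, c, d} : Finset V), G.Adj b x → x = a ∨ x = c := by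
    intro x hx hbx
    rcases (mem x).mp hx with rfl | rfl | rfl | rfl
    · exact Or.inl rfl
    · exact absurd hbx (ir _)
    · exact Or.inr rfl
    · exact absurd hbx n2
  have nc : ∀ x ∈ ({a, b, c, d} : Finset V), G.Adj c x → x = b ∨ x = d := by
    intro x hx hbx
    rcases (mem x).mp hx with rfl | rfl | rfl | rfl
    · exact absurd hbx.symm n1
    · exact Or.inl rfl
    · exact absurd hbx (ir _)
    · exact Or.inr rfl
  have na : ∀ x ∈ ({a, b, c, d} : Finset V), G.Adj a x → x = b := by
    intro x hx hbx
    rcases (mem x).mp hx with rfl | rfl | rfl | rfl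
    · exact absurd hbx (ir _)
    · rfl
    · exact absurd hbx n1
    · exact absurd hbx n3
  refine not_wf (S1 := {b, c}) (S2 := {a}) ?_ ?_ ?_ ?_ ?_ ?_
  · intro x hx; simp at hx ⊢; tauto
  · intro x hx; simp at hx ⊢; tauto
  · have hb : BlueIn G {a, b, c, d} {b, c} b := .init (by simp) (by simp)
    have hc : BlueIn G {a, b, c, d} {b, c} c := .init (by simp) (by simp)
    intro x hx
    rcases (mem x).mp hx with rfl | rfl | rfl | rfl
    · exact .force hb hx h1.symm fun y hy hby hyx => by
        rcases nb y hy hby with rfl | rfl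
        · exact absurd rfl hyx
        · exact hc
    · exact hb
    · exact hc
    · exact .force hc hx h3 fun y hy hby hyx => by
        rcases nc y hy hby with rfl | rfl
        · exact hb
        · exact absurd rfl hyx
  · intro v hv hZ
    rw [Finset.mem_insert, Finset.mem_singleton] at hv
    rcases hv with rfl | rfl
    · have key : ∀ x, BlueIn G {a, v, c, d} (({v, c} : Finset V).erase v) x → x = c := by
        intro x hx
        induction hx with
        | init hA hS =>
          rw [Finset.mem_erase, Finset.mem_insert, Finset.mem_singleton] at hS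
          tauto
        | @force u w hu hw huw h ihu ih =>
          subst ihu
          rcases nc w hw huw with rfl | rfl
          · exact absurd (ih d (by simp) h3 (Ne.symm hbd)).symm h3.ne
          · exact absurd (ih v (by simp) h2.symm hbd) h2.ne
      exact h2.ne (key v (hZ v (by simp)))
    · have key : ∀ x, BlueIn G {a, b, v, d} (({b, v} : Finset V).erase v) x → x = b := by
        intro x hx
        induction hx with
        | init hA hS =>
          rw [Finset.mem_erase, Finset.mem_insert, Finset.mem_singleton] at hS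
          tauto
        | @force u w hu hw huw h ihu ih =>
          subst ihu
          rcases nb w hw huw with rfl | rfl
          · exact absurd (ih v (by simp) h2 (Ne.symm hac)).symm h2.ne
          · exact absurd (ih a (by simp) h1.symm hac) h1.ne
      exact h2.ne (key v (hZ v (by simp))).symm
  · have ha : BlueIn G {a, b, c, d} {a} a := .init (by simp) (by simp)
    have hb : BlueIn G {a, b, c, d} {a} b := .force ha (by simp) h1 fun y hy hay hyb =>
      absurd (na y hy hay) hyb
    have hc : BlueIn G {a, b, c, d} {a} c := .force hb (by simp) h2 fun y hy hby hyc => by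
      rcases nb y hy hby with rfl | rfl
      · exact ha
      · exact absurd rfl hyc
    have hd : BlueIn G {a, b, c, d} {a} d := .force hc (by simp) h3 fun y hy hcy hyd => by
      rcases nc y hy hcy with rfl | rfl
      · exact hb
      · exact absurd rfl hyd
    intro x hx
    rcases (mem x).mp hx with rfl | rfl | rfl | rfl
    · exact ha
    · exact hb
    · exact hc
    · exact hd
  · rw [Finset.card_pair h2.ne, Finset.card_singleton]
    norm_num

theorem not_wf_join {a b c p q s t : V} (hac : a ≠ c) (hab : G.Adj a b) (nac : ¬ G.Adj a c)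
    (hpq : p ≠ q) (hqs : q ≠ s) (npq : ¬ G.Adj p q) (nps : ¬ G.Adj p s) (npt : ¬ G.Adj p t)
    (hst : G.Adj s t) (nqs : ¬ G.Adj q s)
    (hJ : ∀ x ∈ ({a, b, c} : Set V), ∀ y ∈ ({p, q, s, t} : Set V), G.Adj x y) :
    ¬ WellForced (G.induce ((({a, b, c, p, q, s, t} : Finset V)) : Set V)) := by
  have ir := G.loopless.irrefl
  set A : Finset V := {a, b, c, p, q, s, t} with hA
  have mem : ∀ x, x ∈ A ↔ x = a ∨ x = b ∨ x = c ∨ x = p ∨ x = q ∨ x = s ∨ x = t := by
    intro x; simp [hA]
  have ma : a ∈ A := by simp [hA]
  have mb : b ∈ A := by simp [hA]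
  have mc : c ∈ A := by simp [hA]
  have mp : p ∈ A := by simp [hA]
  have mq : q ∈ A := by simp [hA]
  have ms : s ∈ A := by simp [hA]
  have mt : t ∈ A := by simp [hA]
  have Ja : ∀ y, y = p ∨ y = q ∨ y = s ∨ y = t → G.Adj a y := fun y hy =>
    hJ a (by simp) y (by simpa using hy)
  have Jb : ∀ y, y = p ∨ y = q ∨ y = s ∨ y = t → G.Adj b y := fun y hy =>
    hJ b (by simp) y (by simpa using hy)
  have Jc : ∀ y, y = p ∨ y = q ∨ y = s ∨ y = t → G.Adj c y := fun y hy =>
    hJ c (by simp) y (by simpa using hy)
  have hbc : b ≠ c := by rintro rfl; exact nac hab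
  have hps : p ≠ s := by rintro rfl; exact npt hst
  have hpt : p ≠ t := by rintro rfl; exact nps hst.symm
  have hqt : q ≠ t := by rintro rfl; exact nqs hst.symm
  have aX : ∀ y, y = p ∨ y = q ∨ y = s ∨ y = t → a ≠ y := fun y hy => (Ja y hy).ne
  have bX : ∀ y, y = p ∨ y = q ∨ y = s ∨ y = t → b ≠ y := fun y hy => (Jb y hy).ne
  have cX : ∀ y, y = p ∨ y = q ∨ y = s ∨ y = t → c ≠ y := fun y hy => (Jc y hy).ne
  refine not_wf (A := A) (S1 := {a, p, q, s, t}) (S2 := {a, c, q, t}) ?_ ?_ ?_ ?_ ?_ ?_
  · intro x hx
    simp only [Finset.mem_insert, Finset.mem_singleton] at hx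
    rcases hx with rfl | rfl | rfl | rfl | rfl <;> assumption
  · intro x hx
    simp only [Finset.mem_insert, Finset.mem_singleton] at hx
    rcases hx with rfl | rfl | rfl | rfl <;> assumption
  · have i : ∀ x, x = a ∨ x = p ∨ x = q ∨ x = s ∨ x = t → BlueIn G A {a, p, q, s, t} x := by
      intro x hx
      have hx2 : x ∈ ({a, p, q, s, t} : Finset V) := by simpa using hx
      refine .init ?_ hx2
      rcases hx with h | h | h | h | h <;> rw [h] <;> assumption
    have hb : BlueIn G A {a, p, q, s, t} b := by
      refine .force (i a (Or.inl rfl)) mb hab fun y hy hay hyb => ?_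
      rcases (mem y).mp hy with h | h | h | h
      · exact i y (Or.inl h)
      · exact absurd h hyb
      · exact absurd (h ▸ hay) nac
      · exact i y (Or.inr h)
    have hc : BlueIn G A {a, p, q, s, t} c := by
      refine .force (i p (by simp)) mc (Jc p (Or.inl rfl)).symm fun y hy hpy hyc => ?_
      rcases (mem y).mp hy with h | h | h | h
      · exact i y (Or.inl h)
      · exact h ▸ hb
      · exact absurd h hyc
      · exact i y (Or.inr h)
    intro x hx
    rcases (mem x).mp hx with h | h | h | h
    · exact i x (Or.inl h)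
    · exact h ▸ hb
    · exact h ▸ hc
    · exact i x (Or.inr h)
  · intro v hv hZ
    have hbS : b ∉ ({a, p, q, s, t} : Finset V) := by
      simp only [Finset.mem_insert, Finset.mem_singleton, not_or]
      exact ⟨hab.ne', bX p (by simp), bX q (by simp), bX s (by simp), bX t (by simp)⟩
    have hcS : c ∉ ({a, p, q, s, t} : Finset V) := by
      simp only [Finset.mem_insert, Finset.mem_singleton, not_or]
      exact ⟨Ne.symm hac, cX p (by simp), cX q (by simp), cX s (by simp), cX t (by simp)⟩
    have key : ∀ x, BlueIn G A (({a, p, q, s, t} : Finset V).erase v) x →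
        x ∈ ({a, p, q, s, t} : Finset V).erase v := by
      intro x hx
      induction hx with
      | init hA hS => exact hS
      | @force u w hu hw huw h ihu ih =>
        exfalso
        have hbv : b ≠ v := fun e => hbS (e ▸ hv)
        have hcv : c ≠ v := fun e => hcS (e ▸ hv)
        have nbI : w ≠ b → ¬ G.Adj u b := fun hwb hub =>
          hbS (Finset.mem_of_mem_erase (ih b mb hub (Ne.symm hwb)))
        have ncI : w ≠ c → ¬ G.Adj u c := fun hwc huc =>
          hcS (Finset.mem_of_mem_erase (ih c mc huc (Ne.symm hwc)))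
        have hmu := Finset.mem_of_mem_erase ihu
        have huv := Finset.ne_of_mem_erase ihu
        simp only [Finset.mem_insert, Finset.mem_singleton] at hmu hv
        rcases hmu with hua | hux
        · have hvX : v = p ∨ v = q ∨ v = s ∨ v = t := by
            rcases hv with h | h
            · exact absurd (hua.trans h.symm) huv
            · exact h
          have hwb : w = b := by
            by_contra hwb
            exact nbI hwb (hua ▸ hab)
          have hmv : v ∈ A := by rcases hvX with h | h | h | h <;> rw [h] <;> assumption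
          have := ih v hmv (hua ▸ Ja v hvX) (by rw [hwb]; exact Ne.symm hbv)
          exact Finset.notMem_erase v _ this
        · by_cases hwb : w = b
          · exact ncI (by rw [hwb]; exact hbc) (Jc u hux).symm
          · exact nbI hwb (Jb u hux).symm
    exact hbS (Finset.mem_of_mem_erase (key b (hZ b mb)))
  · have i : ∀ x, x = a ∨ x = c ∨ x = q ∨ x = t → BlueIn G A {a, c, q, t} x := by
      intro x hx
      have hx2 : x ∈ ({a, c, q, t} : Finset V) := by simpa using hx
      refine .init ?_ hx2
      rcases hx with h | h | h | h <;> rw [h] <;> assumption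
    have hb : BlueIn G A {a, c, q, t} b := by
      refine .force (i q (by simp)) mb (Jb q (by simp)).symm fun y hy hqy hyb => ?_
      rcases (mem y).mp hy with h | h | h | h | h | h | h
      · exact i y (by simp [h])
      · exact absurd h hyb
      · exact i y (by simp [h])
      · exact absurd (h ▸ hqy).symm npq
      · exact i y (by simp [h])
      · exact absurd (h ▸ hqy) nqs
      · exact i y (by simp [h])
    have hs : BlueIn G A {a, c, q, t} s := by
      refine .force (i t (by simp)) ms hst.symm fun y hy hty hys => ?_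
      rcases (mem y).mp hy with h | h | h | h | h | h | h
      · exact i y (by simp [h])
      · exact h ▸ hb
      · exact i y (by simp [h])
      · exact absurd (h ▸ hty).symm npt
      · exact i y (by simp [h])
      · exact absurd h hys
      · exact i y (by simp [h])
    have hp : BlueIn G A {a, c, q, t} p := by
      refine .force (i a (by simp)) mp (Ja p (by simp)) fun y hy hay hyp => ?_
      rcases (mem y).mp hy with h | h | h | h | h | h | h
      · exact i y (by simp [h])
      · exact h ▸ hb
      · exact i y (by simp [h])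
      · exact absurd h hyp
      · exact i y (by simp [h])
      · exact h ▸ hs
      · exact i y (by simp [h])
    intro x hx
    rcases (mem x).mp hx with h | h | h | h | h | h | h
    · exact i x (by simp [h])
    · exact h ▸ hb
    · exact i x (by simp [h])
    · exact h ▸ hp
    · exact i x (by simp [h])
    · exact h ▸ hs
    · exact i x (by simp [h])
  · have e2 : ({a, c, q, t} : Finset V).card ≤ 4 := Finset.card_le_four
    have e1 : ({a, p, q, s, t} : Finset V).card = 5 := by
      rw [Finset.card_insert_of_notMem, Finset.card_insert_of_notMem,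
        Finset.card_insert_of_notMem, Finset.card_pair hst.ne]
      · simp only [Finset.mem_insert, Finset.mem_singleton, not_or]
        exact ⟨hqs, hqt⟩
      · simp only [Finset.mem_insert, Finset.mem_singleton, not_or]
        exact ⟨hpq, hps, hpt⟩
      · simp only [Finset.mem_insert, Finset.mem_singleton, not_or]
        exact ⟨aX p (by simp), aX q (by simp), aX s (by simp), aX t (by simp)⟩
    omega

end necessity

/-- **Characterisation of the hereditarily well-forced graphs.** Let `G` be a finite graph. Every
induced subgraph `H` of `G` has the property that all minimal zero forcing sets of `H` are minimum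
if and only if `G` contains none of the following five graphs as an induced subgraph: `P_4`, and the
joins of one of `P_3`, `K_1 + K_2` with one of `K_1 + P_3`, `2 K_1 + K_2`. -/
theorem result :
    ∀ (V : Type) [Finite V] (G : SimpleGraph V),
      (∀ A : Set V, WellForced (G.induce A)) ↔ ¬ InducedP4 G ∧ ¬ InducedJoin G := by
  intro V _ G
  constructor
  · intro h
    refine ⟨?_, ?_⟩
    · rintro ⟨a, b, c, d, hac, had, hbd, h1, h2, h3, n1, n2, n3⟩
      exact not_wf_P4 hac had hbd h1 h2 h3 n1 n2 n3 (h _)
    · rintro ⟨a, b, c, p, q, s, t, ⟨hac, hab, nac⟩, ⟨hpq, hqs, npq, nps, npt, hst, nqs⟩, hJ⟩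
      exact not_wf_join hac hab nac hpq hqs npq nps npt hst nqs hJ (h _)
  · rintro ⟨hP, hJ⟩ A
    have hP4 : P4Free G := by
      intro a b c d h1 h2 h3 hac hbd
      by_contra hcon
      push Not at hcon
      refine hP ⟨a, b, c, d, hac, ?_, hbd, h1, h2, h3, hcon.1, hcon.2.1, hcon.2.2⟩
      rintro rfl
      exact hcon.1 h3.symm
    have hfin : A.Finite := Set.toFinite A
    have hA : ((hfin.toFinset : Finset V) : Set V) = A := hfin.coe_toFinset
    rw [← hA]
    refine wf_of_uni (W_of_FFree hP4 _ _ rfl ?_)
    intro a _ b _ c _ hac hab nac p _ q _ s _ t _ hX ja jb jc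
    refine hJ ⟨a, b, c, p, q, s, t, ⟨hac, hab, nac⟩, hX, ?_⟩
    intro x hx y hy
    have hall : ∀ x, JX G x p q s t → ∀ y ∈ ({p, q, s, t} : Set V), G.Adj x y := by
      intro x hx y hy
      simp only [Set.mem_insert_iff, Set.mem_singleton_iff] at hy
      rcases hy with rfl | rfl | rfl | rfl
      · exact hx.1
      · exact hx.2.1
      · exact hx.2.2.1
      · exact hx.2.2.2
    simp only [Set.mem_insert_iff, Set.mem_singleton_iff] at hx
    rcases hx with rfl | rfl | rfl
    · exact hall _ ja y hy
    · exact hall _ jb y hy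
    · exact hall _ jc y hy

end Pool.Agent.Results.MP_c84e8f_co.Hereditary
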