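import Pool.Agent.H81.JoinThm

/-!
# MP_c84e8f_co : joins of disconnected graphs

Let `G` be the join of at least two disconnected graphs `G[B i]` (all edges between different parts).
For every `i` let `C i` be the cone over `G[B i]`, that is `G[B i]` and one more vertex adjacent to
all its vertices; it is realised as the subgraph of `G` induced by `B i` and any vertex `u i` outside
`B i`. Then all minimal zero forcing sets of `G` are minimum if and only if this holds for all the
cones `C i`, and either all the numbers `|B i| - Z(C i)` are equal, or for some `k` the graph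
`G[B k]` is edgeless and these numbers are equal for all `i ≠ k`.
-/

namespace Pool.Agent.Results.MP_c84e8f_co.JoinTheorem

open Pool.Agent.H81.CG

theorem result {V ι : Type*} [Fintype V] [Fintype ι] (G : SimpleGraph V) (B : ι → Finset V)
    (u : ι → V) (two : ∃ i j : ι, i ≠ j) (cover : ∀ v, ∃ i, v ∈ B i)
    (join : ∀ i j, i ≠ j → ∀ x ∈ B i, ∀ y ∈ B j, G.Adj x y)
    (disc : ∀ i, Disconnected G (B i)) (hu : ∀ i, u i ∉ B i) :
    WellForced G ↔
      (∀ i, WellForced (G.induce (insert (u i) (B i : Set V)))) ∧
      ((∀ i j, (B i).card + zeroForcingNumber (G.induce (insert (u j) (B j : Set V))) =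
          (B j).card + zeroForcingNumber (G.induce (insert (u i) (B i : Set V)))) ∨
       ∃ k, Edgeless G (B k) ∧ ∀ i j, i ≠ k → j ≠ k →
        (B i).card + zeroForcingNumber (G.induce (insert (u j) (B j : Set V))) =
          (B j).card + zeroForcingNumber (G.induce (insert (u i) (B i : Set V)))) :=
  join_main' B u two cover join disc hu

end Pool.Agent.Results.MP_c84e8f_co.JoinTheorem
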